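import Mathlib
import Pool.Agent.Q35.Four

namespace Pool.Agent.Results.MP_c5dce0_nt.Full

/-- For all `s ≥ 2` and `n ≥ 1`, `v_2(S_{4,2^s}(n)) = s + 1 + (v_2(2n) mod 2)`. -/
theorem result : ∀ s n : ℕ, 2 ≤ s → 1 ≤ n →
    padicValNat 2 (Pool.Agent.Q35.S 4 (2 ^ s) n) = s + 1 + padicValNat 2 (2 * n) % 2 := by
  intro s n hs hn
  have : Fact (Nat.Prime 2) := ⟨Nat.prime_two⟩
  have hv : padicValNat 2 (2 ^ s) = s := padicValNat.prime_pow s
  rw [Pool.Agent.Q35.val_S_four (2 ^ s) n (by positivity) (by omega) hn, hv,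
    padicValNat.mul (by norm_num) (by omega), padicValNat.self (by norm_num)]
  split_ifs <;> omega

end Pool.Agent.Results.MP_c5dce0_nt.Full
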